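import Pool.Agent.V5helper51.CM.Full
import Pool.Agent.V5helper51.CR6.All
import Pool.Agent.V5helper24.CR.LZ
import Pool.Agent.V5helper51.CM.Cnt

set_option autoImplicit false

/-!
# Primes of the form `n² + a`, `n ≤ N`, with the Hardy–Littlewood constant `h_a`, for almost all `|a| ≤ N ^ (12 - ε)`

For all but at most `X / (log X)^A` of the integers `a`, `|a| ≤ X`, the number of the `n ≤ y` with `|n² + a|` prime is
`h_a ∑_{n ≤ y} 1 / log |n² + a|`, with the convergent product `h_a` over all odd primes and a relative error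
`1 / (log X)^C`, simultaneously for all `y` with `X ^ (1 / 12 + ε) ≤ y ≤ X ^ (1 / 2)`. In particular the least `n`
with `|n² + a|` prime is at most `X ^ (1 / 12 + ε)`.

Proof. The project `CR6` (several authors, see `V5helper51/CR6/All.lean`, `V5helper24/CR/All.lean`): the von Mangoldt
function twisted with a Dirichlet character of a modulus `≤ (log X)^B` has small mean values in almost all intervals of
the length `Y ≥ X ^ (1 / 6 + ε)` (Heath-Brown's identity, the fourth moment of Dirichlet `L`-functions, Halász–Montgomery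
type estimates for Dirichlet polynomials, and the Vinogradov–Korobov bound for the characters). `V5helper51/CM`: the
mean square of `∑_{m ≤ y} Λ(n - m²)`, minus its expected value, over `n`, by the circle method with the frequencies split
into intervals of length `1 / y²` around the rationals with small denominators (Gallagher's lemma turns the local `L²`
norms into sums over short intervals of the length `y²`) and the rest (Weyl's inequality). `R460/SC`: for almost all `a`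
the product over the large primes is `1 + O((log X)^(-C))`. `V5helper51/CM/Cnt.lean`: partial summation.
-/

namespace Pool.Agent.Results.MP_391708_nt.FullConstantTwelfthPower

open Finset Filter Topology

/-- The product which defines `h_a`, over the odd primes `w ≤ z` (`jacobiSym (-a) w` is the Legendre symbol). -/
noncomputable def product (a : ℤ) (z : ℕ) : ℝ :=
  ∏ w ∈ (Icc 3 z).filter Nat.Prime, (1 - (jacobiSym (-a) w : ℝ) / ((w : ℝ) - 1))

/-- `H = h_a`: the product over the odd primes, in increasing order, converges to `H`. -/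
def IsConstant (a : ℤ) (H : ℝ) : Prop := Tendsto (product a) atTop (𝓝 H)

/-- `P_a(y)`: the number of the `n`, `1 ≤ n ≤ y`, for which `|n² + a|` is prime. -/
noncomputable def P (a : ℤ) (y : ℕ) : ℝ :=
  (((Icc 1 y).filter (fun n : ℕ => ((n : ℤ) ^ 2 + a).natAbs.Prime)).card : ℝ)

/-- The sum of `1 / log |n² + a|` over `1 ≤ n ≤ y`. -/
noncomputable def li (a : ℤ) (y : ℕ) : ℝ := ∑ n ∈ Icc 1 y, 1 / Real.log (((n : ℤ) ^ 2 + a).natAbs : ℝ)

/-- The sum of `log |n² + a|` over the `n`, `1 ≤ n ≤ y`, for which `|n² + a|` is prime. -/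
noncomputable def theta (a : ℤ) (y : ℕ) : ℝ :=
  ∑ n ∈ Icc 1 y, if ((n : ℤ) ^ 2 + a).natAbs.Prime then Real.log (((n : ℤ) ^ 2 + a).natAbs : ℝ) else 0

/-- The conclusion for one integer `a`: `|n² + a| ≥ 2` for `n ≤ √X`, the product `h_a` converges to a number
`H ≥ 1 / (log X)^3`, for all `y` with `X ^ (1 / 12 + ε) ≤ y ≤ √X` the primes `|n² + a|`, `n ≤ y`, are counted by the
formula of Hardy and Littlewood with the relative error `1 / (log X)^C` (with and without the weights `log |n² + a|`),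
and there is a prime `|n² + a|` with `1 ≤ n ≤ X ^ (1 / 12 + ε)`. -/
def Good (ε : ℝ) (C X : ℕ) (a : ℤ) : Prop :=
  (∀ n : ℕ, n ^ 2 ≤ X → 2 ≤ ((n : ℤ) ^ 2 + a).natAbs) ∧
  (∃ H : ℝ, IsConstant a H ∧ 1 / Real.log X ^ 3 ≤ H ∧
    ∀ y : ℕ, (X : ℝ) ^ (1 / 12 + ε) ≤ y → y ^ 2 ≤ X →
      |P a y - H * li a y| ≤ H * li a y / Real.log X ^ C ∧ |theta a y - H * y| ≤ H * y / Real.log X ^ C) ∧
  ∃ n : ℕ, 1 ≤ n ∧ (n : ℝ) ≤ (X : ℝ) ^ (1 / 12 + ε) ∧ ((n : ℤ) ^ 2 + a).natAbs.Prime

open Classical in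
/-- The number of the integers `a`, `|a| ≤ X`, for which the conclusion fails. -/
noncomputable def exceptions (ε : ℝ) (C X : ℕ) : ℕ :=
  ((Icc (-(X : ℤ)) X).filter (fun a : ℤ => ¬ Good ε C X a)).card

open Classical in
/-- the numbers `a` with `|n² + a| ≤ 1` for some `n ≤ √X` are few -/
lemma few (X : ℕ) : (((Icc (-(X : ℤ)) X).filter (fun a : ℤ => ∃ n : ℕ, n ^ 2 ≤ X ∧
    ((n : ℤ) ^ 2 + a).natAbs < 2)).card : ℝ) ≤ 3 * (Nat.sqrt X + 1) := by
  classical
  have hsub : (Icc (-(X : ℤ)) X).filter (fun a : ℤ => ∃ n : ℕ, n ^ 2 ≤ X ∧ ((n : ℤ) ^ 2 + a).natAbs < 2) ⊆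
      (range (Nat.sqrt X + 1) ×ˢ range 3).image (fun p : ℕ × ℕ => (p.2 : ℤ) - 1 - (p.1 : ℤ) ^ 2) := by
    intro a ha
    rw [mem_filter] at ha
    obtain ⟨_, n, hn, h2⟩ := ha
    rw [mem_image]
    have h3 : ((n : ℤ) ^ 2 + a + 1).toNat < 3 := by omega
    refine ⟨(n, ((n : ℤ) ^ 2 + a + 1).toNat), ?_, ?_⟩
    · rw [mem_product, mem_range, mem_range]
      refine ⟨?_, h3⟩
      have : n ≤ Nat.sqrt X := by
        rw [Nat.le_sqrt']
        exact hn
      simp only
      omega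
    · simp only
      have : (((n : ℤ) ^ 2 + a + 1).toNat : ℤ) = (n : ℤ) ^ 2 + a + 1 := Int.toNat_of_nonneg (by omega)
      rw [this]
      ring
  have h1 := (card_le_card hsub).trans card_image_le
  rw [card_product, card_range, card_range] at h1
  calc (((Icc (-(X : ℤ)) X).filter (fun a : ℤ => ∃ n : ℕ, n ^ 2 ≤ X ∧
      ((n : ℤ) ^ 2 + a).natAbs < 2)).card : ℝ) ≤ (((Nat.sqrt X + 1) * 3 : ℕ) : ℝ) := by exact_mod_cast h1
    _ = 3 * (Nat.sqrt X + 1) := by push_cast; ring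

/-- the step from the weighted to the plain count, for one `a` -/
lemma toGood {ε ε₁ : ℝ} (hε₁ : 0 < ε₁) (hle : ε₁ ≤ ε) (h12 : ε₁ ≤ 1 / 12) {C D X : ℕ} {a : ℤ} (hX : 2 ≤ X)
    (haX : |a| ≤ X) (hL12 : 12 ≤ Real.log X)
    (hp : Real.log X ^ (D + C + 10) ≤ (X : ℝ) ^ (ε₁ / 2))
    (h2 : ∀ n : ℕ, n ^ 2 ≤ X → 2 ≤ ((n : ℤ) ^ 2 + a).natAbs)
    (H : ℝ) (hH : IsConstant a H) (hH3 : 1 / Real.log X ^ 3 ≤ H)
    (h : ∀ y : ℕ, (X : ℝ) ^ (1 / 12 + ε₁ / 2) * Real.log X ^ D ≤ y → y ^ 2 ≤ X →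
      |theta a y - H * y| ≤ y / Real.log X ^ (C + 5)) : Good ε C X a := by
  obtain ⟨L, hL⟩ : ∃ L, L = Real.log (X : ℝ) := ⟨_, rfl⟩
  unfold Good
  rw [← hL] at hL12 hp hH3 h ⊢
  have hX1 : (1 : ℝ) ≤ X := by exact_mod_cast (by omega : 1 ≤ X)
  have hX0 : (0 : ℝ) < X := by linarith
  have hL0 : 0 < L := by linarith
  have hL1 : 1 ≤ L := by linarith
  have hH0 : 0 < H := lt_of_lt_of_le (by positivity) hH3
  have hva : ∀ n : ℕ, n ^ 2 ≤ X → Real.log (((n : ℤ) ^ 2 + a).natAbs : ℝ) ≤ 2 * L := by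
    intro n hn
    have e1 : ((n : ℤ) ^ 2 + a).natAbs ≤ X * X := by
      have h3 : |(n : ℤ) ^ 2 + a| ≤ 2 * X := by
        calc |(n : ℤ) ^ 2 + a| ≤ |(n : ℤ) ^ 2| + |a| := abs_add_le _ _
          _ ≤ X + X := by
              apply add_le_add _ haX
              rw [abs_of_nonneg (by positivity)]
              exact_mod_cast hn
          _ = 2 * X := by ring
      have h4 : ((((n : ℤ) ^ 2 + a).natAbs : ℕ) : ℤ) ≤ 2 * X := by
        rw [Int.natCast_natAbs]
        exact h3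
      have h5 : ((n : ℤ) ^ 2 + a).natAbs ≤ 2 * X := by exact_mod_cast h4
      exact h5.trans (Nat.mul_le_mul_right X hX)
    have e2 : (0 : ℝ) < (((n : ℤ) ^ 2 + a).natAbs : ℝ) := by
      have := h2 n hn
      exact_mod_cast (by omega : 0 < ((n : ℤ) ^ 2 + a).natAbs)
    calc Real.log (((n : ℤ) ^ 2 + a).natAbs : ℝ) ≤ Real.log ((X : ℝ) * X) := by
          apply Real.log_le_log e2
          exact_mod_cast e1
      _ = 2 * L := by
          rw [Real.log_mul hX0.ne' hX0.ne', hL]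
          ring
  obtain ⟨T, hT⟩ : ∃ T, T = (X : ℝ) ^ (1 / 12 + ε₁ / 2) * L ^ D := ⟨_, rfl⟩
  rw [← hT] at h
  have hT1 : 1 ≤ T := by
    rw [hT]
    exact one_le_mul_of_one_le_of_one_le (Real.one_le_rpow hX1 (by positivity)) (one_le_pow₀ hL1)
  have hbig : T * L ^ (C + 10) ≤ (X : ℝ) ^ (1 / 12 + ε₁) := by
    calc T * L ^ (C + 10) = (X : ℝ) ^ (1 / 12 + ε₁ / 2) * L ^ (D + C + 10) := by
          rw [hT, mul_assoc, ← pow_add]
          congr 2
      _ ≤ (X : ℝ) ^ (1 / 12 + ε₁ / 2) * (X : ℝ) ^ (ε₁ / 2) := mul_le_mul_of_nonneg_left hp (by positivity)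
      _ = (X : ℝ) ^ (1 / 12 + ε₁) := by
          rw [← Real.rpow_add hX0]
          congr 1
          ring
  have hyT : ∀ y : ℕ, (X : ℝ) ^ (1 / 12 + ε₁) ≤ y → T * L ^ (C + 10) ≤ y := fun y hy => hbig.trans hy
  have key : ∀ y : ℕ, T * L ^ (C + 9) ≤ y → y ^ 2 ≤ X →
      |P a y - H * li a y| ≤ H * li a y / L ^ C ∧ |theta a y - H * y| ≤ H * y / L ^ C := by
    intro y hy hyX
    have hTy : T ≤ y := (le_mul_of_one_le_right (by linarith) (one_le_pow₀ hL1)).trans hy
    have hy0 : (0 : ℝ) < y := by linarith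
    have h1 := h y hTy hyX
    have hHL : H ≤ 3 * L := by
      have e1 : theta a y ≤ y * (2 * L) := by
        unfold theta
        calc _ ≤ ∑ n ∈ Icc 1 y, (2 * L : ℝ) := by
              apply sum_le_sum
              intro n hn
              rw [mem_Icc] at hn
              have hn2 : n ^ 2 ≤ X := (Nat.pow_le_pow_left hn.2 2).trans hyX
              split_ifs
              · exact hva n hn2
              · positivity
          _ = y * (2 * L) := by
              rw [sum_const, nsmul_eq_mul, Nat.card_Icc]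
              simp
      have e2 : (y : ℝ) / L ^ (C + 5) ≤ y := div_le_self hy0.le (one_le_pow₀ hL1)
      have e3 := (abs_le.1 (h1.trans e2)).1
      have e4 : H * y ≤ (3 * L) * y := by nlinarith
      exact le_of_mul_le_mul_right e4 hy0
    obtain ⟨E, hE⟩ : ∃ E, E = (y : ℝ) / L ^ (C + 5) := ⟨_, rfl⟩
    have hE0 : 0 < E := by rw [hE]; positivity
    have hlow : (y : ℝ) / (2 * L) ≤ li a y := by
      unfold li
      calc (y : ℝ) / (2 * L) = ∑ n ∈ Icc 1 y, (1 / (2 * L) : ℝ) := by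
            rw [sum_const, nsmul_eq_mul, Nat.card_Icc]
            simp [div_eq_mul_inv]
        _ ≤ _ := by
            apply sum_le_sum
            intro n hn
            rw [mem_Icc] at hn
            have hn2 : n ^ 2 ≤ X := (Nat.pow_le_pow_left hn.2 2).trans hyX
            apply one_div_le_one_div_of_le _ (hva n hn2)
            apply Real.log_pos
            have := h2 n hn2
            exact_mod_cast (by omega : 1 < ((n : ℤ) ^ 2 + a).natAbs)
    constructor
    · have hc := Pool.Agent.V5helper51.CM.cnt a y ⌈T⌉₊ H E (3 * L) (by linarith) hH0.le hHL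
        (fun n hn => h2 n ((Nat.pow_le_pow_left hn 2).trans hyX))
        (fun n hn => (hva n ((Nat.pow_le_pow_left hn 2).trans hyX)).trans (by linarith)) (by
          have e1 : (⌈T⌉₊ : ℝ) ≤ 2 * T := by
            have := Nat.ceil_lt_add_one (show 0 ≤ T by linarith)
            linarith
          rw [hE, le_div_iff₀ (by positivity)]
          calc (⌈T⌉₊ : ℝ) * (3 * (3 * L)) * L ^ (C + 5) ≤ (2 * T) * (3 * (3 * L)) * L ^ (C + 5) := by gcongr
            _ = T * L ^ (C + 6) * 18 := by ring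
            _ ≤ T * L ^ (C + 6) * L ^ 3 := by
                apply mul_le_mul_of_nonneg_left _ (by positivity)
                nlinarith [mul_self_nonneg L, sq_nonneg (L - 12)]
            _ = T * L ^ (C + 9) := by ring
            _ ≤ y := hy) (by
          intro k hk1 hk2
          have hkT : T ≤ k := (Nat.le_ceil T).trans (by exact_mod_cast hk1)
          have h3 := h k hkT ((Nat.pow_le_pow_left hk2 2).trans hyX)
          refine h3.trans ?_
          rw [hE]
          gcongr)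
      have hc2 : |P a y - H * li a y| ≤ 6 * E := hc
      refine hc2.trans ?_
      calc 6 * E = 6 * (y / L ^ (C + 5)) := by rw [hE]
        _ ≤ (1 / L ^ 3) * (y / (2 * L)) / L ^ C := by
            have e1 : (1 / L ^ 3) * (y / (2 * L)) / L ^ C = y / L ^ (C + 5) * (L / 2) := by
              rw [pow_add L C 5]
              field_simp
            rw [e1]
            nlinarith
        _ ≤ H * li a y / L ^ C := by gcongr
    · refine h1.trans ?_
      calc (y : ℝ) / L ^ (C + 5) ≤ (1 / L ^ 3) * y / L ^ C := by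
            have e1 : (1 / L ^ 3) * y / L ^ C = y / L ^ (C + 5) * L ^ 2 := by
              rw [pow_add L C 5]
              field_simp
            rw [e1]
            exact le_mul_of_one_le_right (by positivity) (one_le_pow₀ hL1)
        _ ≤ H * y / L ^ C := by gcongr
  have hbig2 : T * L ^ (C + 9) * 2 ≤ (X : ℝ) ^ (1 / 12 + ε₁) := by
    refine le_trans ?_ hbig
    rw [show C + 10 = (C + 9) + 1 by ring, pow_succ L (C + 9), ← mul_assoc]
    exact mul_le_mul_of_nonneg_left (by linarith) (by positivity)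
  refine ⟨h2, ⟨H, hH, hH3, fun y hy hyX => key y ?_ hyX⟩, ?_⟩
  · have : (X : ℝ) ^ (1 / 12 + ε₁) ≤ (X : ℝ) ^ (1 / 12 + ε) := Real.rpow_le_rpow_of_exponent_le hX1 (by linarith)
    have h0 : 0 ≤ T * L ^ (C + 9) := by positivity
    linarith
  · obtain ⟨y, hy⟩ : ∃ y, y = ⌊(X : ℝ) ^ (1 / 12 + ε₁)⌋₊ := ⟨_, rfl⟩
    have hfl : (y : ℝ) ≤ (X : ℝ) ^ (1 / 12 + ε₁) := by rw [hy]; exact Nat.floor_le (by positivity)
    have hfl2 : (X : ℝ) ^ (1 / 12 + ε₁) < y + 1 := by rw [hy]; exact Nat.lt_floor_add_one _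
    have hT2 : 1 ≤ T * L ^ (C + 9) := one_le_mul_of_one_le_of_one_le hT1 (one_le_pow₀ hL1)
    have hy1 : T * L ^ (C + 9) ≤ y := by linarith
    have hyX : y ^ 2 ≤ X := by
      have a1 : (y : ℝ) ^ 2 ≤ X := by
        calc (y : ℝ) ^ 2 ≤ ((X : ℝ) ^ (1 / 12 + ε₁)) ^ 2 := by gcongr
          _ = (X : ℝ) ^ ((1 / 12 + ε₁) * 2) := by
              rw [Real.rpow_mul hX0.le]
              norm_num
          _ ≤ (X : ℝ) ^ (1 : ℝ) := Real.rpow_le_rpow_of_exponent_le hX1 (by linarith)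
          _ = X := Real.rpow_one _
      exact_mod_cast a1
    have hTy : T ≤ y := (le_mul_of_one_le_right (by linarith) (one_le_pow₀ hL1)).trans hy1
    have hy0 : (0 : ℝ) < y := by linarith
    have h1 := h y hTy hyX
    by_contra hno
    push Not at hno
    have h7 : theta a y = 0 := by
      unfold theta
      apply sum_eq_zero
      intro m hm
      rw [mem_Icc] at hm
      rw [if_neg]
      apply hno m hm.1
      calc (m : ℝ) ≤ y := by exact_mod_cast hm.2
        _ ≤ (X : ℝ) ^ (1 / 12 + ε₁) := hfl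
        _ ≤ (X : ℝ) ^ (1 / 12 + ε) := Real.rpow_le_rpow_of_exponent_le hX1 (by linarith)
    rw [h7, zero_sub, abs_neg, abs_of_pos (by positivity)] at h1
    have h8 : (y : ℝ) / L ^ (C + 5) < H * y := by
      calc (y : ℝ) / L ^ (C + 5) < (1 / L ^ 3) * y := by
            have e1 : (1 / L ^ 3) * y = y / L ^ (C + 5) * L ^ (C + 2) := by
              rw [show C + 5 = (C + 2) + 3 by ring, pow_add L (C + 2) 3]
              field_simp
            rw [e1]
            apply lt_mul_of_one_lt_right (by positivity)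
            exact one_lt_pow₀ (by linarith) (by omega)
        _ ≤ H * y := by gcongr
    linarith

theorem result (ε : ℝ) (hε : 0 < ε) (A C : ℕ) :
    ∃ X₀ : ℕ, ∀ X : ℕ, X₀ ≤ X → (exceptions ε C X : ℝ) ≤ X / Real.log X ^ A := by
  classical
  obtain ⟨ε₁, hε₁⟩ : ∃ ε₁, ε₁ = min ε (1 / 12) := ⟨_, rfl⟩
  have h1 : 0 < ε₁ := by rw [hε₁]; exact lt_min hε (by norm_num)
  have h2 : ε₁ ≤ ε := by rw [hε₁]; exact min_le_left _ _
  have h3 : ε₁ ≤ 1 / 12 := by rw [hε₁]; exact min_le_right _ _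
  have hS : Pool.Agent.V5helper51.CR6.SIAt (1 / 6 + ε₁) := Pool.Agent.V5helper51.CR6.sia6 h1 (by linarith)
  obtain ⟨D, X₀, h0⟩ := Pool.Agent.V5helper51.CM.full_th (θ := 1 / 6 + ε₁) (by linarith) (by linarith) hS
    Pool.Agent.V5helper24.CR.lz (a := 1) (b := 0) one_ne_zero (A + 1) (C + 5)
  obtain ⟨X₁, g1⟩ := Filter.eventually_atTop.1 (Pool.Agent.Y614.GJ.Core.ev_log (D + C + 10) (s := ε₁ / 2)
    (by positivity) 12)
  obtain ⟨X₂, g2⟩ := Filter.eventually_atTop.1 (Pool.Agent.Y614.GJ.Core.ev_log (A + 2) (s := 1 / 2)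
    (by norm_num) 12)
  refine ⟨X₀ + X₁ + X₂ + 3, fun X hX => ?_⟩
  obtain ⟨hL12, hLp⟩ := g1 X (by omega)
  obtain ⟨_, hLq⟩ := g2 X (by omega)
  have hX1 : (1 : ℝ) ≤ X := by exact_mod_cast (by omega : 1 ≤ X)
  have hX0 : (0 : ℝ) < X := by linarith
  have hf : ∀ (a : ℤ) (n : ℕ), Pool.Agent.R460.SB.fv (-1) 0 a n = (n : ℤ) ^ 2 + a := by
    intro a n
    unfold Pool.Agent.R460.SB.fv
    ring
  have hlocal : ∀ a : ℤ, ∀ p : ℕ, p.Prime → ∃ m : ℕ, ¬ (p : ℤ) ∣ Pool.Agent.R460.SB.fv (-1) 0 a m := by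
    intro a p hp
    by_contra hno
    push Not at hno
    have k0 := hno 0
    have k1 := hno 1
    rw [hf] at k0 k1
    have k2 := dvd_sub k1 k0
    norm_num at k2
    have := Int.le_of_dvd one_pos k2
    have := hp.two_le
    omega
  have hsub : (Icc (-(X : ℤ)) X).filter (fun a : ℤ => ¬ Good ε C X a) ⊆
      (Icc (-(X : ℤ)) X).filter (fun a : ℤ => ¬ Pool.Agent.V5helper51.CM.GoodU 1 0 (1 / 6 + ε₁) (C + 5) D X a) ∪
      (Icc (-(X : ℤ)) X).filter (fun a : ℤ => ∃ n : ℕ, n ^ 2 ≤ X ∧ ((n : ℤ) ^ 2 + a).natAbs < 2) := by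
    intro a ha
    rw [mem_filter] at ha
    rw [mem_union, mem_filter, mem_filter]
    by_contra hno
    push Not at hno
    obtain ⟨n1, n2⟩ := hno
    have hga := n1 ha.1
    have hge := n2 ha.1
    apply ha.2
    have e1 : ∀ y : ℕ, ∑ m ∈ Icc 1 y, Pool.Agent.R460.SQ.thp (Pool.Agent.R460.SB.fv (-1) 0 a m).natAbs = theta a y := by
      intro y
      unfold theta Pool.Agent.R460.SQ.thp
      exact sum_congr rfl fun m _ => by rw [hf]
    have e2 : (fun z : ℕ => Pool.Agent.R460.SB.Sz (-1) 0 a z) = product a := by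
      funext z
      exact Pool.Agent.R460.SB.Sz_leg a z
    have e0 : (1 / 6 + ε₁) / 2 = 1 / 12 + ε₁ / 2 := by ring
    unfold Pool.Agent.V5helper51.CM.GoodU at hga
    simp only [neg_zero, e1, e2, e0] at hga
    obtain ⟨H, k1, k2, k3⟩ := hga
    replace k2 := k2 (hlocal a)
    refine toGood h1 h2 h3 (by omega) ?_ hL12 hLp hge H k1 k2 k3
    rw [mem_Icc] at ha
    exact abs_le.2 ha.1
  have hc := (card_le_card hsub).trans (card_union_le _ _)
  have hfew := few X
  have hmain := h0 X (by omega)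
  obtain ⟨L, hL⟩ : ∃ L, L = Real.log (X : ℝ) := ⟨_, rfl⟩
  rw [← hL] at hL12 hLp hLq hmain ⊢
  have hL0 : 0 < L := by linarith
  have hs : (Nat.sqrt X : ℝ) ≤ (X : ℝ) ^ (1 / 2 : ℝ) := by
    rw [← Real.sqrt_eq_rpow]
    exact Real.nat_sqrt_le_real_sqrt
  have hs1 : (1 : ℝ) ≤ (X : ℝ) ^ (1 / 2 : ℝ) := Real.one_le_rpow hX1 (by norm_num)
  have hs2 : (X : ℝ) ^ (1 / 2 : ℝ) * (X : ℝ) ^ (1 / 2 : ℝ) = X := by
    rw [← Real.rpow_add hX0]
    norm_num
  have hfin : 3 * ((Nat.sqrt X : ℝ) + 1) ≤ X / L ^ (A + 1) := by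
    rw [le_div_iff₀ (by positivity)]
    calc 3 * ((Nat.sqrt X : ℝ) + 1) * L ^ (A + 1) ≤ 3 * ((X : ℝ) ^ (1 / 2 : ℝ) + (X : ℝ) ^ (1 / 2 : ℝ)) * L ^ (A + 1) := by
          gcongr
      _ = (X : ℝ) ^ (1 / 2 : ℝ) * (6 * L ^ (A + 1)) := by ring
      _ ≤ (X : ℝ) ^ (1 / 2 : ℝ) * (X : ℝ) ^ (1 / 2 : ℝ) := by
          apply mul_le_mul_of_nonneg_left _ (by positivity)
          refine le_trans ?_ hLq
          rw [show A + 2 = (A + 1) + 1 by ring, pow_succ L (A + 1), mul_comm (L ^ (A + 1))]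
          apply mul_le_mul_of_nonneg_right (by linarith) (by positivity)
      _ = X := hs2
  unfold exceptions
  have hc' : (((Icc (-(X : ℤ)) X).filter (fun a : ℤ => ¬ Good ε C X a)).card : ℝ) ≤
      (((Icc (-(X : ℤ)) X).filter
        (fun a : ℤ => ¬ Pool.Agent.V5helper51.CM.GoodU 1 0 (1 / 6 + ε₁) (C + 5) D X a)).card : ℝ) +
      (((Icc (-(X : ℤ)) X).filter (fun a : ℤ => ∃ n : ℕ, n ^ 2 ≤ X ∧ ((n : ℤ) ^ 2 + a).natAbs < 2)).card : ℝ) := by
    exact_mod_cast hc
  have hm' : (((Icc (-(X : ℤ)) X).filter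
        (fun a : ℤ => ¬ Pool.Agent.V5helper51.CM.GoodU 1 0 (1 / 6 + ε₁) (C + 5) D X a)).card : ℝ) ≤
        X / L ^ (A + 1) := (le_of_eq (by congr)).trans hmain
  have hf' : (((Icc (-(X : ℤ)) X).filter (fun a : ℤ => ∃ n : ℕ, n ^ 2 ≤ X ∧ ((n : ℤ) ^ 2 + a).natAbs < 2)).card : ℝ) ≤
      3 * (Nat.sqrt X + 1) := (le_of_eq (by congr)).trans hfew
  calc (((Icc (-(X : ℤ)) X).filter (fun a : ℤ => ¬ Good ε C X a)).card : ℝ) ≤ X / L ^ (A + 1) + X / L ^ (A + 1) := by
        linarith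
    _ = X / L ^ A * (2 / L) := by
        rw [pow_succ]
        field_simp
        norm_num
    _ ≤ X / L ^ A * 1 := by
        apply mul_le_mul_of_nonneg_left _ (by positivity)
        rw [div_le_one hL0]
        linarith
    _ = X / L ^ A := mul_one _

end Pool.Agent.Results.MP_391708_nt.FullConstantTwelfthPower
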