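import Mathlib
import Pool.Agent.V5helper51.LL.Fin

/-!
# The value distribution of `P_a(N)` in thin families

For `N^(5/6+ε) ≤ A ≤ N` the numbers `P_a(N)`, `a ≤ A`, divided by `(1/2) ∫_2^N dt / log t`, have a limit
distribution `G`, which is also the distribution of the constants `h_a` over all `a`. `G` is continuous
and strictly increasing on `[0, ∞)`, and both tails are doubly exponential, with the exact constants:
`1 - G(t) = exp (- exp ((2 e^(-γ) + o(1)) t))`, `G(1/t) = exp (- exp ((2 C₂ e^(-γ) + o(1)) t))`, `C₂` the product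
of `1 - 1 / (p - 1)²` over the odd primes. For any different shifts `s_1, …, s_k` the `k` counts
`P_(a + s_j)(n)`, for all `κ N ≤ n ≤ N` at the same time, have a joint limit distribution, which is the one of
the `h_(a + s_j)`, and which has full support: the `k` ratios can be prescribed.

Proof. The asymptotic formula for almost all `a ≤ A` (starting files, `N792`: type II sums estimated by a
double large sieve on average over `a`), and the distribution of truncated products (starting files,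
project `N511/LL`: anti-concentration by Sperner's theorem, moments of the tail of the product, Weil's
bound and a greedy choice of signs for the full support). The tails (`V5helper51/LL`): moments of large
order of the products, with Mertens' theorem for the primes below the order and a Gaussian bound above
it, and a choice of the extreme symbols for the lower bounds.
-/

set_option autoImplicit false

namespace Pool.Agent.Results.MP_391708_nt.LimitLaw

open Finset Filter Topology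
open Pool.Agent.V5helper51.LL (P0 LI)

/-- `P_a(N)`: the number of the `1 ≤ n ≤ N` for which `|n² + a|` is a prime -/
def P (a : ℤ) (N : ℕ) : ℕ := #((Icc 1 N).filter (fun n : ℕ => Nat.Prime ((n : ℤ) ^ 2 + a).natAbs))

/-- the product of `1 - (-a | w) / (w - 1)` over the odd primes `w ≤ X` -/
noncomputable def hprod (a : ℤ) (X : ℕ) : ℝ :=
  ∏ w ∈ (range (X + 1)).filter (fun w => Nat.Prime w ∧ w ≠ 2), (1 - (jacobiSym (-a) w : ℝ) / ((w : ℝ) - 1))

/-- `(1/2) ∫_2^n dt / log t` -/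
noncomputable def L (n : ℕ) : ℝ := 1 / 2 * ∫ t in (2 : ℝ)..(n : ℝ), 1 / Real.log t

lemma hprod_eq (a : ℤ) (z : ℕ) : Pool.Agent.N511.LL.T (-a) z = hprod a z := by
  unfold Pool.Agent.N511.LL.T Pool.Agent.N511.LL.loc hprod
  apply prod_congr _ (fun _ _ => rfl)
  ext p
  rw [Pool.Agent.V5helper51.LL.mem_PP, mem_filter, mem_range]
  constructor
  · rintro ⟨h1, h2, h3⟩
    exact ⟨by omega, h1, by omega⟩
  · rintro ⟨h1, h2, h3⟩
    have := h2.two_le
    exact ⟨h2, by omega, by omega⟩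

lemma P_eq (c n : ℕ) : P (c : ℤ) n = P0 c n := by
  have h : ∀ m : ℕ, ((m : ℤ) ^ 2 + (c : ℤ)).natAbs = m ^ 2 + c := by
    intro m
    have : ((m : ℤ) ^ 2 + (c : ℤ)) = ((m ^ 2 + c : ℕ) : ℤ) := by push_cast; ring
    rw [this, Int.natAbs_natCast]
  unfold P P0
  simp_rw [h]

open Classical in
/-- **The value distribution of `P_a(N)` in thin families.** There are a function `G` and a number `C₂`
such that

(1) `G` is continuous, `0` on `(-∞, 0]`, strictly increasing on `[0, ∞)`, with limit `1` at `∞`;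

(2) `C₂ = ∏_{p > 2} (1 - 1 / (p - 1)²) > 0`, and `log (- log (1 - G(t))) / t → 2 e^(-γ)`,
`log (- log G(1/t)) / t → 2 C₂ e^(-γ)` as `t → ∞`;

(3) for every `t` the proportion of the `a ≤ X` for which `h_a` exists and is at most `t` tends to `G(t)`;

(4) for `N^(5/6+ε) ≤ A ≤ N` the proportion of the `a ≤ A` with `P_a(N) ≤ t (1/2) ∫_2^N dt / log t` is `G(t)` up to
`η`, uniformly for all real `t`, if `N` is large in terms of `ε` and `η`;

(5) for different `s_1, …, s_k ≥ 0` there is `ρ`, positive for all boxes `∏ (α_j, β_j]` with `α_j < β_j`, `β_j > 0`,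
such that the proportion of the `a ≤ X` for which all `h_(a + s_j)` exist and lie in `(α_j, β_j]` tends to
`ρ(α, β)`, and for `N^(5/6+ε) ≤ A ≤ N` and `0 < κ ≤ 1` the proportion of the `a ≤ A` with
`α_j (1/2) ∫_2^n dt / log t < P_(a + s_j)(n) ≤ β_j (1/2) ∫_2^n dt / log t` for all `j` and all `κ N ≤ n ≤ N` is
`ρ(α, β)` up to `η`, uniformly in `α` and `β`, for all large `N`. -/
theorem result : ∃ (G : ℝ → ℝ) (C₂ : ℝ),
    (Continuous G ∧ (∀ t ≤ 0, G t = 0) ∧ StrictMonoOn G (Set.Ici 0) ∧ Tendsto G atTop (𝓝 1)) ∧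
    (Tendsto (fun y : ℕ => ∏ p ∈ (Icc 3 y).filter Nat.Prime, (1 - 1 / ((p : ℝ) - 1) ^ 2)) atTop (𝓝 C₂) ∧ 0 < C₂ ∧
      Tendsto (fun t : ℝ => Real.log (-Real.log (1 - G t)) / t) atTop
        (𝓝 (2 * Real.exp (-Real.eulerMascheroniConstant))) ∧
      Tendsto (fun t : ℝ => Real.log (-Real.log (G (1 / t))) / t) atTop
        (𝓝 (2 * C₂ * Real.exp (-Real.eulerMascheroniConstant)))) ∧
    (∀ t : ℝ, Tendsto (fun X : ℕ => (#((Icc 1 X).filter (fun a : ℕ =>
      ∃ h : ℝ, Tendsto (fun z : ℕ => hprod a z) atTop (𝓝 h) ∧ h ≤ t)) : ℝ) / X) atTop (𝓝 (G t))) ∧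
    (∀ ε η : ℝ, 0 < ε → 0 < η → ∃ N₀ : ℕ, ∀ N : ℕ, N₀ ≤ N → ∀ A : ℕ, (N : ℝ) ^ (5 / 6 + ε) ≤ A → A ≤ N →
      ∀ t : ℝ, |(#((Icc 1 A).filter (fun a : ℕ => (P a N : ℝ) ≤ t * L N)) : ℝ) / A - G t| ≤ η) ∧
    (∀ (k : ℕ) (s : Fin k → ℕ), Function.Injective s → ∃ ρ : (Fin k → ℝ) → (Fin k → ℝ) → ℝ,
      (∀ α β : Fin k → ℝ, (∀ j, α j < β j) → (∀ j, 0 < β j) → 0 < ρ α β) ∧
      (∀ α β : Fin k → ℝ, Tendsto (fun X : ℕ => (#((Icc 1 X).filter (fun a : ℕ => ∀ j, ∃ h : ℝ,
        Tendsto (fun z : ℕ => hprod (a + s j) z) atTop (𝓝 h) ∧ α j < h ∧ h ≤ β j)) : ℝ) / X) atTop (𝓝 (ρ α β))) ∧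
      ∀ ε κ η : ℝ, 0 < ε → 0 < κ → κ ≤ 1 → 0 < η → ∃ N₀ : ℕ, ∀ N : ℕ, N₀ ≤ N → ∀ A : ℕ,
        (N : ℝ) ^ (5 / 6 + ε) ≤ A → A ≤ N → ∀ α β : Fin k → ℝ,
        |(#((Icc 1 A).filter (fun a : ℕ => ∀ j, ∀ n : ℕ, κ * N ≤ n → n ≤ N →
          α j * L n < P (a + s j) n ∧ (P (a + s j) n : ℝ) ≤ β j * L n)) : ℝ) / A - ρ α β| ≤ η) := by
  obtain ⟨G, hG, hcont, hneg, hmono, hone, hρ⟩ := Pool.Agent.V5helper51.LL.g0
  obtain ⟨-, C2, hC2, hC2lim, hC2log⟩ := Pool.Agent.V5helper51.LL.m0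
  obtain ⟨ht1, ht2⟩ := Pool.Agent.V5helper51.LL.G_tails hG hC2 hC2log
  obtain ⟨hs1, hs2⟩ := Pool.Agent.V5helper51.LL.fin_single hρ
  have hdiv : ∀ {x y g η : ℝ}, 0 < y → |x - y * g| ≤ η * y → |x / y - g| ≤ η := by
    intro x y g η hy h
    have e : x / y - g = (x - y * g) / y := by field_simp
    rw [e, abs_div, abs_of_pos hy, div_le_iff₀ hy]
    exact h
  refine ⟨G, C2, ⟨hcont, hneg, hmono, hone⟩, ⟨?_, hC2, ht1, ht2⟩, ?_, ?_, ?_⟩
  · refine hC2lim.congr fun y => ?_
    apply prod_congr _ (fun _ _ => rfl)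
    ext p
    rw [Pool.Agent.V5helper51.LL.mem_PP, mem_filter, mem_Icc]
    tauto
  · intro t
    rw [Metric.tendsto_atTop]
    intro e he
    obtain ⟨X0, h⟩ := hs1 t (e / 2) (by linarith)
    refine ⟨X0 + 1, fun X hX => ?_⟩
    rw [Real.dist_eq]
    have hX0 : (0 : ℝ) < X := by exact_mod_cast (by omega : 0 < X)
    have h1 := hdiv hX0 (h X (by omega))
    simp only [hprod_eq] at h1
    refine lt_of_le_of_lt ?_ (show e / 2 < e by linarith)
    convert h1
  · intro ε η hε hη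
    obtain ⟨N0, h⟩ := hs2 ε η hε hη
    refine ⟨N0 + 1, fun N hN A hA1 hA2 t => ?_⟩
    have hN1 : (1 : ℝ) ≤ N := by exact_mod_cast (by omega : 1 ≤ N)
    have hA0 : (0 : ℝ) < A := lt_of_lt_of_le (Real.rpow_pos_of_pos (by linarith) _) hA1
    have h1 := hdiv hA0 (h N (by omega) A hA1 hA2 t)
    have hL : ∀ n, L n = LI n := fun n => rfl
    simp_rw [P_eq, hL]
    convert h1
  · intro k s hs
    have hinj : Function.Injective (fun j : Fin k => -(s j : ℤ)) := by
      intro i j hij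
      apply hs
      simp only at hij
      omega
    obtain ⟨ρ, hρ'⟩ := @Pool.Agent.V5helper51.LL.hD0 (Fin k) _ (fun j => -(s j : ℤ))
    refine ⟨ρ, ?_, ?_, ?_⟩
    · intro α β hαβ hβ
      obtain ⟨c0, hc0, y1, hy1⟩ := @Pool.Agent.V5helper51.LL.hF0 (Fin k) _ _ hinj α β hαβ hβ
      have hlim : Tendsto (fun y : ℕ => Pool.Agent.N511.LL.Gb y (fun j : Fin k => -(s j : ℤ)) α β) atTop
          (𝓝 (ρ α β)) := by
        rw [Metric.tendsto_atTop]
        intro e he
        obtain ⟨y2, hy2⟩ := hρ' (e / 2) (by linarith)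
        refine ⟨y2, fun y hy => ?_⟩
        rw [Real.dist_eq]
        have := hy2 y hy α β
        linarith
      have : c0 ≤ ρ α β := ge_of_tendsto hlim (eventually_atTop.2 ⟨y1, fun y hy => hy1 y hy⟩)
      linarith
    · intro α β
      rw [Metric.tendsto_atTop]
      intro e he
      obtain ⟨X0, h⟩ := Pool.Agent.V5helper51.LL.law_h s ρ hρ' (e / 2) (by linarith)
      refine ⟨X0 + 1, fun X hX => ?_⟩
      rw [Real.dist_eq]
      have hX0 : (0 : ℝ) < X := by exact_mod_cast (by omega : 0 < X)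
      have h1 := hdiv hX0 (h X (by omega) α β)
      simp only [hprod_eq] at h1
      push_cast at h1
      refine lt_of_le_of_lt ?_ (show e / 2 < e by linarith)
      convert h1
    · intro ε κ η hε hκ hκ1 hη
      obtain ⟨N0, h⟩ := Pool.Agent.V5helper51.LL.law_P s ρ hρ' ε κ η hε hκ hκ1 hη
      refine ⟨N0 + 1, fun N hN A hA1 hA2 α β => ?_⟩
      have hN1 : (1 : ℝ) ≤ N := by exact_mod_cast (by omega : 1 ≤ N)
      have hA0 : (0 : ℝ) < A := lt_of_lt_of_le (Real.rpow_pos_of_pos (by linarith) _) hA1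
      have h1 := hdiv hA0 (h N (by omega) A hA1 hA2 α β)
      have hP : ∀ (a : ℕ) (j : Fin k) (n : ℕ), P ((a : ℤ) + (s j : ℤ)) n = P0 (a + s j) n := by
        intro a j n
        rw [← P_eq]
        push_cast
        rfl
      have hL : ∀ n, L n = LI n := fun n => rfl
      simp_rw [hP, hL]
      convert h1

end Pool.Agent.Results.MP_391708_nt.LimitLaw
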