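import Mathlib
import Pool.Agent.V5helper51.BH.Fin

/-!
# Primes `|n² ± a|` for a positive proportion of the `a ≤ A`, `N^(1/2+ε) ≤ A ≤ N`

There is an absolute constant `c > 0` with the following property. For every `ε > 0`, all large `N`, every
`A` with `N^(1/2 + ε) ≤ A ≤ N` and both signs, at least `c A` of the integers `a ≤ A` have at least `c` times
the number of the primes `|n² ± a|`, `n ≤ N`, which Hardy and Littlewood predict, with the constant
`h_{± a}` of the problem; these primes are found already with `N / 8 < n ≤ N`. The families are very thin: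
the values `n² ± a`, `n ≤ N`, `a ≤ A = N^(1/2+ε)`, are only `N^(3/2+ε)` integers below `2 N²`, and `A` is about
the square root of the distances `2 n` of the squares. The lower bounds for almost all `a` need
`A ≥ N^(7/10+ε)`.

Proof (`V5helper51/BH`). A prime `p = n² + a` or `n² - a` with a small `a` is a prime for which `√p` is close
to an integer, on a given side of it. For the sums `∑ exp (2 π i h √p)` over the primes `p ~ Z`, on average
over the frequencies `h ≤ Z^(1/4-ε)`, Vaughan's identity leads to linear sums (van der Corput) and to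
bilinear sums `exp (2 π i h √(k l))`, which are separated and estimated by a double large sieve over the pairs
`(h, k)` and the variable `l`, with the number of the solutions of `|h √k - h' √k'| ≤ Δ`. This gives the
expected number of such primes, up to a constant, for `A ≥ N^(1/2+ε)` (the exponent `1/4` for the primes
with a small fractional part of `√p`). The number of the pairs of primes `|n² ± a|`, `|m² ± a|`, `a ≤ A`, is bounded by
Selberg's sieve for every pair `n < m`, and the mean value of the singular series of the differences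
`m² - n²` is bounded. Cauchy's inequality gives a positive proportion of the `a ≤ A`. The constants `h_{± a}`
are bounded for most `a` by the same second moment and the asymptotic formula on average over long ranges.
-/

set_option autoImplicit false

namespace Pool.Agent.Results.MP_391708_nt.PositiveProportionSquareRoot

open Finset Filter Topology

/-- `P_a(N)`: the number of the `1 ≤ n ≤ N` for which `|n² + a|` is a prime -/
def P (a : ℤ) (N : ℕ) : ℕ := #((Icc 1 N).filter (fun n : ℕ => Nat.Prime ((n : ℤ) ^ 2 + a).natAbs))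

/-- the product of `1 - (-a | w) / (w - 1)` over the odd primes `w ≤ X` -/
noncomputable def hprod (a : ℤ) (X : ℕ) : ℝ :=
  ∏ w ∈ (range (X + 1)).filter (fun w => Nat.Prime w ∧ w ≠ 2), (1 - (jacobiSym (-a) w : ℝ) / ((w : ℝ) - 1))

lemma P_sub (s : ℤ) (a : ℕ) {u v : ℕ} (huv : u ≤ v) :
    (P (s * a) v : ℝ) - P (s * a) u = (Pool.Agent.V5helper51.BH.cnt s a u v : ℝ) := by
  have h : P (s * a) v = P (s * a) u + Pool.Agent.V5helper51.BH.cnt s a u v := by
    unfold P Pool.Agent.V5helper51.BH.cnt Pool.Agent.V5helper51.BH.vv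
    rw [← card_union_of_disjoint]
    · congr 1
      ext n
      simp only [mem_filter, mem_Icc, mem_Ioc, mem_union]
      constructor
      · rintro ⟨⟨h1, h2⟩, h3⟩
        rcases le_or_gt n u with h | h
        · exact Or.inl ⟨⟨h1, h⟩, h3⟩
        · exact Or.inr ⟨⟨h, h2⟩, h3⟩
      · rintro (⟨⟨h1, h2⟩, h3⟩ | ⟨⟨h1, h2⟩, h3⟩)
        · exact ⟨⟨h1, by omega⟩, h3⟩
        · exact ⟨⟨by omega, h2⟩, h3⟩
    · rw [disjoint_left]
      intro n hn hn'
      rw [mem_filter, mem_Icc] at hn
      rw [mem_filter, mem_Ioc] at hn'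
      omega
  rw [h]
  push_cast
  ring

/-- **Primes `|n² ± a|` for a positive proportion of the `a ≤ A`, `N^(1/2+ε) ≤ A ≤ N`.** There is an absolute
constant `c > 0` such that for every `ε > 0`, all large `N`, every `A` with `N^(1/2 + ε) ≤ A ≤ N` and both signs
`s = ± 1` there is a set `G` of at least `c A` of the integers `1 ≤ a ≤ A` with the following property: for
every `a ∈ G` the product `h_{s a}` converges to a number `h > 0`, and the number of the `N / 8 < n ≤ N` for
which `|n² + s a|` is a prime is at least `c N / log N` and at least `c` times the number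
`(1/2) h ∫_2^N dt / log t` of Hardy and Littlewood (so also `P_{s a}(N) ≥ c (1/2) h ∫_2^N dt / log t`). -/
theorem result : ∃ c : ℝ, 0 < c ∧ ∀ ε : ℝ, 0 < ε → ∃ N₀ : ℕ, ∀ N A : ℕ, N₀ ≤ N →
    (N : ℝ) ^ (1 / 2 + ε) ≤ A → A ≤ N → ∀ s : ℤ, (s = 1 ∨ s = -1) →
      ∃ G ⊆ Icc 1 A, c * A ≤ (#G : ℝ) ∧ ∀ a ∈ G, ∃ h : ℝ, 0 < h ∧
        Tendsto (fun X : ℕ => hprod (s * a) X) atTop (𝓝 h) ∧
        c * (N / Real.log N) ≤ (P (s * a) N : ℝ) - P (s * a) (N / 8) ∧
        c * (1 / 2 * h * ∫ t in (2 : ℝ)..(N : ℝ), 1 / Real.log t) ≤ (P (s * a) N : ℝ) - P (s * a) (N / 8) := by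
  obtain ⟨c, hc, h1⟩ := Pool.Agent.V5helper51.BH.fin_main
  refine ⟨c, hc, fun ε hε => ?_⟩
  obtain ⟨N0, h2⟩ := h1 ε hε
  refine ⟨N0, fun N A hN hA1 hA2 s hs => ?_⟩
  obtain ⟨G, h3, h4, h5⟩ := h2 N A hN hA1 hA2 s hs
  refine ⟨G, h3, h4, fun a ha => ?_⟩
  obtain ⟨h, q1, q2, q3, q4⟩ := h5 a ha
  refine ⟨h, q1, q2, ?_, ?_⟩
  · rw [P_sub s a (Nat.div_le_self N 8)]
    exact q3
  · rw [P_sub s a (Nat.div_le_self N 8)]
    exact q4

end Pool.Agent.Results.MP_391708_nt.PositiveProportionSquareRoot
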