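import Mathlib
import Pool.Agent.V5helper51.SU

/-!
# Upper bounds for the number of the primes `|n² + a|` in almost all short intervals, for every `a`

For an individual interval `(N, N + X ^ θ]` the linear sieve (level of distribution `X ^ θ`) gives at most
`(4 / θ + δ)` times the number of the primes `|n² + a|` which Hardy and Littlewood predict. For EVERY
integer `a` which is not of the form `-m²` the constant is `4 / τ + δ` for all but at most
`X ^ (2 τ - θ + ε)` of the `N ≤ X`, for every `1 / 2 ≤ τ < 1`: it is `8 / (1 + θ) + δ` for almost all `N`, and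
`8 + δ` for all but `X ^ (1 - θ + ε)` of them, however small `θ > 0` is.

Proof. The linear sieve with its optimal functions (Jurkat-Richert, `Y445/JRB`, `W366/DC`, `Y882/JR`), the mean
square over `N` of the remainder terms for the sequence of the values in a short interval, and the asymptotic
formula for the density of the sieve, the product of `1 - ρ(p) / p` over `p ≤ z`, for every admissible `a`
(`Y781/JR`), which gives the true constant `h_a`.
-/

set_option autoImplicit false

namespace Pool.Agent.Results.MP_391708_nt.ShortIntervalsUpper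

open Finset Filter Topology

/-- `P_a(N)`: the number of the `1 ≤ n ≤ N` for which `|n² + a|` is a prime -/
def P (a : ℤ) (N : ℕ) : ℕ := #((Icc 1 N).filter (fun n : ℕ => Nat.Prime ((n : ℤ) ^ 2 + a).natAbs))

/-- the product of `1 - (-a | w) / (w - 1)` over the odd primes `w ≤ X` -/
noncomputable def hprod (a : ℤ) (X : ℕ) : ℝ :=
  ∏ w ∈ (range (X + 1)).filter (fun w => Nat.Prime w ∧ w ≠ 2), (1 - (jacobiSym (-a) w : ℝ) / ((w : ℝ) - 1))

lemma P_add (a : ℤ) (N H : ℕ) :
    (P a (N + H) : ℝ) - P a N = (Pool.Agent.V5helper51.SU.primesIn a N H : ℝ) := by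
  have h : P a (N + H) = P a N + Pool.Agent.V5helper51.SU.primesIn a N H := by
    unfold P Pool.Agent.V5helper51.SU.primesIn
    rw [← card_union_of_disjoint]
    · congr 1
      ext n
      simp only [mem_filter, mem_Icc, mem_Ioc, mem_union]
      constructor
      · rintro ⟨⟨h1, h2⟩, h3⟩
        rcases le_or_gt n N with h | h
        · exact Or.inl ⟨⟨h1, h⟩, h3⟩
        · exact Or.inr ⟨⟨h, h2⟩, h3⟩
      · rintro (⟨⟨h1, h2⟩, h3⟩ | ⟨⟨h1, h2⟩, h3⟩)
        · exact ⟨⟨h1, by omega⟩, h3⟩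
        · exact ⟨⟨by omega, h2⟩, h3⟩
    · rw [disjoint_left]
      intro n hn hn'
      rw [mem_filter, mem_Icc] at hn
      rw [mem_filter, mem_Ioc] at hn'
      omega
  rw [h]
  push_cast
  ring

/-- **Primes `|n² + a|` in almost all short intervals, for every `a`.** Let `a` be an integer which is not of
the form `-m²`. The product `h_a` over the odd primes converges to a number `h > 0`, and for all
`0 < θ ≤ 1`, `1 / 2 ≤ τ < 1`, `δ, ε > 0` and all large `X` the inequality
`P_a(N + X ^ θ) - P_a(N) ≤ (4 / τ + δ) (1 / 2) h X ^ θ / log X` holds for all but at most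
`X ^ (2 τ - θ + ε)` of the integers `1 ≤ N ≤ X`. -/
theorem result (a : ℤ) (ha : ¬ IsSquare (-a)) :
    ∃ h : ℝ, 0 < h ∧ Tendsto (fun X : ℕ => hprod a X) atTop (𝓝 h) ∧
      ∀ θ τ δ ε : ℝ, 0 < θ → θ ≤ 1 → 1 / 2 ≤ τ → τ < 1 → 0 < δ → 0 < ε →
        ∃ X₀ : ℕ, ∀ X : ℕ, X₀ ≤ X →
          (#((Icc 1 X).filter (fun N : ℕ =>
            (4 / τ + δ) * (1 / 2 * h * ((X : ℝ) ^ θ / Real.log X)) <
              (P a (N + ⌊(X : ℝ) ^ θ⌋₊) : ℝ) - P a N)) : ℝ) ≤ (X : ℝ) ^ (2 * τ - θ + ε) := by
  obtain ⟨L, hL, h1, h2⟩ := Pool.Agent.V5helper51.SU.main a ha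
  refine ⟨L, hL, h1, ?_⟩
  intro θ τ δ ε a1 a2 a3 a4 a5 a6
  obtain ⟨X₀, hX⟩ := eventually_atTop.1 (h2 θ τ δ ε a1 a2 a3 a4 a5 a6)
  refine ⟨X₀, fun X hXX => ?_⟩
  refine le_trans (le_of_eq ?_) (hX X hXX)
  congr 2
  ext N
  rw [mem_filter, mem_filter, P_add]
  have e1 : (4 / τ + δ) * (1 / 2 * L * ((X : ℝ) ^ θ / Real.log X)) =
      (4 / τ + δ) * (L / 2 * ((X : ℝ) ^ θ / Real.log X)) := by ring
  rw [e1]

end Pool.Agent.Results.MP_391708_nt.ShortIntervalsUpper
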